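import Pool.Agent.Lib.MP_fb8dd6_al.Series

/-!
The submodule `H` of pairs of integral series, and its closure property under rational division.
-/

namespace Pool.Agent.MP_fb8dd6_al

open NPS

/-- letters -/
abbrev Al : Type := Fin 2 × Fin 2

/-- the row vector `w` times the matrix of letters -/
def RM {k : Type} [CommRing k] (w : Fin 2 → NPS Al k) (j : Fin 2) : NPS Al k :=
  w 0 * X (0, j) + w 1 * X (1, j)

theorem RM_nil {k : Type} [CommRing k] (w : Fin 2 → NPS Al k) (j : Fin 2) :
    (RM w j).cf [] = 0 := by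
  simp [RM, mul_X_nil]

theorem rho_RM {k : Type} [CommRing k] (w : Fin 2 → NPS Al k) (i j j' : Fin 2) :
    rho (i, j') (RM w j) = if j' = j then w i else 0 := by
  apply ext_cf
  intro u
  simp only [RM, rho_cf, add_cf, mul_X_cons, Prod.mk.injEq]
  by_cases h : j' = j
  · subst h
    fin_cases i <;> simp
  · simp [h]

theorem ext_of_rho {α k : Type} {f g : NPS α k} (h0 : f.cf [] = g.cf [])
    (h : ∀ a, rho a f = rho a g) : f = g := by
  apply ext_cf
  intro w
  cases w with
  | nil => exact h0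
  | cons a w => exact congrArg (fun f => NPS.cf f w) (h a)

theorem mul_RM {k : Type} [CommRing k] (m : NPS Al k) (w : Fin 2 → NPS Al k) (j : Fin 2) :
    RM (fun i => m * w i) j = m * RM w j := by
  simp only [RM, mul_add, mul_assoc]

/-- Over a field, the module of row vectors modulo the matrix of letters is torsion free. -/
theorem torsion_free_letters {F : Type} [Field F] {m : NPS Al F} (hm : m ≠ 0)
    (l w : Fin 2 → NPS Al F) (h : ∀ j, m * l j = RM w j) :
    ∃ w' : Fin 2 → NPS Al F, (∀ j, l j = RM w' j) ∧ ∀ i, w i = m * w' i := by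
  -- the fundamental relation
  have rel : ∀ i j j', m * rho (i, j') (l j) + scal ((l j).cf []) (rho (i, j') m)
      = if j' = j then w i else 0 := by
    intro i j j'
    rw [← rho_mul, h j, rho_RM]
  by_cases hex : ∃ j, (l j).cf [] = 0
  · obtain ⟨j, hj⟩ := hex
    have hw : ∀ i, w i = m * rho (i, j) (l j) := by
      intro i
      have := rel i j j
      rw [if_pos rfl, hj] at this
      rw [← this]
      apply ext_cf
      intro u; simp
    refine ⟨fun i => rho (i, j) (l j), ?_, hw⟩
    intro j1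
    apply mul_left_cancel_of_ne_zero hm
    rw [h j1, ← mul_RM]
    simp only [RM, hw]
  · exfalso
    have hex' : ∀ j, (l j).cf [] ≠ 0 := fun j hj => hex ⟨j, hj⟩
    apply hm
    apply eq_zero_of_rho
    · have h1 := congrArg (fun f => NPS.cf f []) (h 0)
      simp only [mul_nil, RM_nil] at h1
      rcases mul_eq_zero.mp h1 with h2 | h2
      · exact h2
      · exact absurd h2 (hex' 0)
    · rintro ⟨i, j'⟩
      -- choose `j ≠ j'`
      obtain ⟨j, hj⟩ : ∃ j : Fin 2, j' ≠ j := ⟨j' + 1, by fin_cases j' <;> decide⟩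
      have h1 := rel i j j'
      rw [if_neg hj] at h1
      refine ⟨scal (-((l j).cf [])⁻¹) (rho (i, j') (l j)), ?_⟩
      rw [mul_scal]
      apply ext_cf
      intro u
      have h2 := congrArg (fun f => NPS.cf f u) h1
      have h3 := hex' j
      simp only [add_cf, scal_cf, rho_cf, zero_cf] at h2 ⊢
      field_simp
      linear_combination h2

/-- the matrix -/
def M (i j : Fin 2) : NPS Al ℤ :=
  if i = 1 ∧ j = 1 then -(2 + X (i, j)) else 2 + X (i, j)

/-- row vector times the matrix `M` -/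
def act (w : Fin 2 → NPS Al ℤ) (j : Fin 2) : NPS Al ℤ := w 0 * M 0 j + w 1 * M 1 j

/-- reduction modulo two -/
def red : NPS Al ℤ →+* NPS Al (ZMod 2) := NPS.map (Int.castRingHom (ZMod 2))

/-- rational coefficients -/
def incl : NPS Al ℤ →+* NPS Al ℚ := NPS.map (Int.castRingHom ℚ)

theorem incl_injective : Function.Injective incl :=
  map_injective _ Int.cast_injective

theorem two_zmod : (2 : NPS Al (ZMod 2)) = 0 := by
  have h : (2 : NPS Al (ZMod 2)) = 1 + 1 := one_add_one_eq_two.symm
  rw [h]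
  apply ext_cf
  intro w
  cases w with
  | nil =>
    rw [add_cf, one_nil, zero_cf]
    decide
  | cons a w => rw [add_cf, one_cons, zero_cf, add_zero]

theorem red_X (a : Al) : red (X a) = X a := by
  apply ext_cf
  intro w
  simp only [red, X, map_cf]
  split <;> simp

theorem red_M (i j : Fin 2) : red (M i j) = X (i, j) := by
  unfold M
  have h2 : red 2 = 0 := by rw [map_ofNat, two_zmod]
  split
  · rw [map_neg, map_add, h2, red_X, zero_add]
    apply ext_cf
    intro w
    simp only [X, neg_cf]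
    split
    · decide
    · simp
  · rw [map_add, h2, red_X, zero_add]

theorem red_act (w : Fin 2 → NPS Al ℤ) (j : Fin 2) :
    red (act w j) = RM (fun i => red (w i)) j := by
  simp only [act, RM, map_add, map_mul, red_M]

@[simp] theorem zsmul_cf {α : Type} (n : ℤ) (f : NPS α ℤ) (w : List α) :
    (n • f).cf w = n * f.cf w := rfl

theorem exists_half (f : NPS Al ℤ) (h : red f = 0) : ∃ g : NPS Al ℤ, f = (2 : ℤ) • g := by
  refine ⟨⟨fun w => f.cf w / 2⟩, ?_⟩
  apply ext_cf
  intro w
  have h1 : ((f.cf w : ℤ) : ZMod 2) = 0 := congrArg (fun f => NPS.cf f w) h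
  have h2 : (2 : ℤ) ∣ f.cf w := by
    have := (ZMod.intCast_zmod_eq_zero_iff_dvd (f.cf w) 2).mp h1
    simpa using this
  rw [zsmul_cf]
  exact (Int.mul_ediv_cancel' h2).symm

theorem exists_lift (f : NPS Al (ZMod 2)) : ∃ g : NPS Al ℤ, red g = f := by
  refine ⟨⟨fun w => ((f.cf w).val : ℤ)⟩, ?_⟩
  apply ext_cf
  intro w
  simp [red]

theorem two_smul_cancel {f g : NPS Al ℤ} (h : (2 : ℤ) • f = (2 : ℤ) • g) : f = g := by
  apply ext_cf
  intro w
  have := congrArg (fun f => NPS.cf f w) h
  simp only [zsmul_cf] at this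
  omega

theorem act_add (w w' : Fin 2 → NPS Al ℤ) (j : Fin 2) :
    act (fun i => w i + w' i) j = act w j + act w' j := by
  simp only [act, add_mul]; abel

theorem act_mul (m : NPS Al ℤ) (w : Fin 2 → NPS Al ℤ) (j : Fin 2) :
    act (fun i => m * w i) j = m * act w j := by
  simp only [act, mul_add, mul_assoc]

theorem act_smul (n : ℤ) (w : Fin 2 → NPS Al ℤ) (j : Fin 2) :
    act (fun i => n • w i) j = n • act w j := by
  simp only [act, smul_add, smul_mul_assoc]

/-- the `2`-adic closure of the row space of `M` -/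
def InH (l : Fin 2 → NPS Al ℤ) : Prop :=
  ∀ N : ℕ, ∃ w y : Fin 2 → NPS Al ℤ, ∀ j, l j = act w j + (2 : ℤ) ^ N • y j

theorem inH_add {l l' : Fin 2 → NPS Al ℤ} (h : InH l) (h' : InH l') :
    InH (fun j => l j + l' j) := by
  intro N
  obtain ⟨w, y, e⟩ := h N
  obtain ⟨w', y', e'⟩ := h' N
  refine ⟨fun i => w i + w' i, fun i => y i + y' i, fun j => ?_⟩
  simp only [e, e', act_add, smul_add]
  abel

theorem inH_mul (p : NPS Al ℤ) {l : Fin 2 → NPS Al ℤ} (h : InH l) :
    InH (fun j => p * l j) := by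
  intro N
  obtain ⟨w, y, e⟩ := h N
  refine ⟨fun i => p * w i, fun i => p * y i, fun j => ?_⟩
  simp only
  rw [e, mul_add, act_mul, mul_smul_comm]

theorem inH_zero : InH (fun _ => 0) := by
  intro N
  refine ⟨fun _ => 0, fun _ => 0, fun j => ?_⟩
  simp [act]

theorem inH_row (i : Fin 2) : InH (fun j => M i j) := by
  intro N
  refine ⟨fun i' => if i' = i then 1 else 0, fun _ => 0, fun j => ?_⟩
  fin_cases i <;> simp [act]

theorem red_smul_two (f : NPS Al ℤ) : red ((2 : ℤ) • f) = 0 := by
  have : (2 : ℤ) • f = 2 * f := by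
    rw [zsmul_eq_mul]; norm_num
  rw [this, map_mul, map_ofNat, two_zmod, zero_mul]

theorem red_pow_smul (N : ℕ) (f : NPS Al ℤ) : red ((2 : ℤ) ^ (N + 1) • f) = 0 := by
  rw [pow_succ', mul_smul, red_smul_two]

/-- if `w M` is even then `w` is even -/
theorem red_w_zero {w : Fin 2 → NPS Al ℤ} (h : ∀ j, red (act w j) = 0) : ∀ i, red (w i) = 0 := by
  intro i
  have h1 := h 0
  rw [red_act] at h1
  have h2 := rho_RM (fun i => red (w i)) i 0 0
  rw [h1, if_pos rfl, rho_zero] at h2
  exact h2.symm

theorem inH_half {l : Fin 2 → NPS Al ℤ} (h : InH (fun j => (2 : ℤ) • l j)) : InH l := by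
  intro N
  obtain ⟨w, y, e⟩ := h (N + 1)
  have h1 : ∀ j, red (act w j) = 0 := by
    intro j
    have := congrArg red (e j)
    rw [red_smul_two, map_add, red_pow_smul, add_zero] at this
    exact this.symm
  have h2 := red_w_zero h1
  choose w1 hw1 using fun i => exists_half (w i) (h2 i)
  refine ⟨w1, y, fun j => ?_⟩
  apply two_smul_cancel
  have hw : w = fun i => (2 : ℤ) • w1 i := funext hw1
  have h3 := e j
  simp only at h3
  rw [h3, hw, act_smul, smul_add, pow_succ', mul_smul]

theorem step {m : NPS Al ℤ} (hm : red m ≠ 0) : ∀ N : ℕ, ∀ l w y : Fin 2 → NPS Al ℤ,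
    (∀ j, m * l j = act w j + (2 : ℤ) ^ N • y j) →
    ∃ w' y' : Fin 2 → NPS Al ℤ, ∀ j, l j = act w' j + (2 : ℤ) ^ N • y' j := by
  intro N
  induction N with
  | zero =>
    intro l w y _
    refine ⟨fun _ => 0, l, fun j => ?_⟩
    simp [act]
  | succ N ih =>
    intro l w y h
    have h1 : ∀ j, red m * red (l j) = RM (fun i => red (w i)) j := by
      intro j
      rw [← map_mul, h j, map_add, red_pow_smul, add_zero, red_act]
    obtain ⟨wb, hl, hw⟩ := torsion_free_letters hm (fun j => red (l j)) (fun i => red (w i)) h1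
    choose w' hw' using fun i => exists_lift (wb i)
    have hl1 : ∀ j, ∃ l1, l j - act w' j = (2 : ℤ) • l1 := by
      intro j
      apply exists_half
      have h5 : red (l j) = RM wb j := hl j
      rw [map_sub, h5, red_act]
      simp only [hw', sub_self]
    have hw1 : ∀ i, ∃ w1, w i - m * w' i = (2 : ℤ) • w1 := by
      intro i
      apply exists_half
      have h5 : red (w i) = red m * wb i := hw i
      rw [map_sub, map_mul, h5, hw', sub_self]
    choose l1 hl1 using hl1
    choose w1 hw1 using hw1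
    have hl2 : ∀ j, l j = act w' j + (2 : ℤ) • l1 j := fun j => by rw [← hl1 j]; abel
    have hw2 : ∀ i, w i = m * w' i + (2 : ℤ) • w1 i := fun i => by rw [← hw1 i]; abel
    have h3 : ∀ j, m * l1 j = act w1 j + (2 : ℤ) ^ N • y j := by
      intro j
      apply two_smul_cancel
      have h4 := h j
      have hwf : w = fun i => m * w' i + (2 : ℤ) • w1 i := funext hw2
      rw [hl2 j, hwf, act_add, act_mul, act_smul, mul_add, mul_smul_comm, pow_succ',
        mul_smul, add_assoc] at h4
      have h5 := add_left_cancel h4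
      rw [h5, smul_add]
    obtain ⟨w2, y2, h6⟩ := ih l1 w1 y h3
    refine ⟨fun i => w' i + (2 : ℤ) • w2 i, y2, fun j => ?_⟩
    rw [hl2 j, h6 j, act_add, act_smul, smul_add, pow_succ', mul_smul]
    abel

theorem inH_of_mul : ∀ n : ℕ, ∀ m : NPS Al ℤ, (m.cf []).natAbs = n → m.cf [] ≠ 0 →
    ∀ l : Fin 2 → NPS Al ℤ, InH (fun j => m * l j) → InH l := by
  intro n
  induction n using Nat.strong_induction_on with
  | _ n ih =>
    intro m hn hm l h
    by_cases hr : red m = 0
    · obtain ⟨m1, hm1⟩ := exists_half m hr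
      have h0 : m.cf [] = 2 * m1.cf [] := by rw [hm1]; rfl
      apply ih (m1.cf []).natAbs _ m1 rfl _ l
      · apply inH_half
        have : (fun j => (2 : ℤ) • (m1 * l j)) = fun j => m * l j := by
          funext j; rw [hm1, smul_mul_assoc]
        rw [this]; exact h
      · omega
      · intro h1; apply hm; rw [h0, h1, mul_zero]
    · intro N
      obtain ⟨w, y, e⟩ := h N
      exact step hr N l w y e

/-- integral series whose left multiple by `s` is integral -/
def InJ (s : NPS Al ℚ) (p : NPS Al ℤ) : Prop := ∃ q : NPS Al ℤ, s * incl p = incl q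

theorem inJ_add {s : NPS Al ℚ} {p p' : NPS Al ℤ} (h : InJ s p) (h' : InJ s p') :
    InJ s (p + p') := by
  obtain ⟨q, e⟩ := h
  obtain ⟨q', e'⟩ := h'
  exact ⟨q + q', by rw [map_add, map_add, mul_add, e, e']⟩

theorem inJ_mul {s : NPS Al ℚ} {p : NPS Al ℤ} (h : InJ s p) (r : NPS Al ℤ) :
    InJ s (p * r) := by
  obtain ⟨q, e⟩ := h
  exact ⟨q * r, by rw [map_mul, map_mul, ← mul_assoc, e]⟩

theorem inJ_scal {s : NPS Al ℚ} {p : NPS Al ℤ} (h : InJ s p) (c : ℤ) :
    InJ s (scal c p) := by
  have : scal c p = p * scal c 1 := by rw [mul_scal, mul_one]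
  rw [this]; exact inJ_mul h _

theorem inJ_rho {s : NPS Al ℚ} {p : NPS Al ℤ} (h : InJ s p) (h0 : p.cf [] = 0) (a : Al) :
    InJ s (rho a p) := by
  obtain ⟨q, e⟩ := h
  refine ⟨rho a q, ?_⟩
  have h1 := rho_mul s (incl p) a
  have h2 : (incl p).cf [] = 0 := by simp [incl, h0]
  rw [e, h2] at h1
  have h3 : rho a (incl q) = incl (rho a q) := rfl
  have h4 : rho a (incl p) = incl (rho a p) := rfl
  rw [h3, h4] at h1
  rw [h1]
  apply ext_cf
  intro w; simp

theorem exists_const_ne {s : NPS Al ℚ} (w : List Al) : ∀ p : NPS Al ℤ, InJ s p → p.cf w ≠ 0 →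
    ∃ p' : NPS Al ℤ, InJ s p' ∧ p'.cf [] ≠ 0 := by
  induction w with
  | nil => intro p hp h; exact ⟨p, hp, h⟩
  | cons a w ih =>
    intro p hp h
    by_cases h0 : p.cf [] = 0
    · exact ih (rho a p) (inJ_rho hp h0 a) h
    · exact ⟨p, hp, h0⟩

/-- the ideal `J` is principal on the right -/
theorem exists_gen {s : NPS Al ℚ} {p0 : NPS Al ℤ} (hp0 : InJ s p0) (hne : p0 ≠ 0) :
    ∃ m : NPS Al ℤ, InJ s m ∧ m.cf [] ≠ 0 ∧ ∀ p, InJ s p → ∃ r, p = m * r := by
  classical
  -- an element of J with nonzero constant term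
  obtain ⟨p1, hp1, hc1⟩ : ∃ p' : NPS Al ℤ, InJ s p' ∧ p'.cf [] ≠ 0 := by
    have : ∃ w, p0.cf w ≠ 0 := by
      by_contra hcon
      push Not at hcon
      exact hne (ext_cf hcon)
    obtain ⟨w, hw⟩ := this
    exact exists_const_ne w p0 hp0 hw
  -- the ideal of constant terms
  let I : Ideal ℤ :=
    { carrier := {n | ∃ p, InJ s p ∧ p.cf [] = n}
      add_mem' := by
        rintro a b ⟨p, hp, rfl⟩ ⟨q, hq, rfl⟩
        exact ⟨p + q, inJ_add hp hq, rfl⟩
      zero_mem' := ⟨scal 0 p1, inJ_scal hp1 0, by simp⟩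
      smul_mem' := by
        rintro c a ⟨p, hp, rfl⟩
        exact ⟨scal c p, inJ_scal hp c, rfl⟩ }
  obtain ⟨g, hg⟩ := (IsPrincipalIdealRing.principal I).principal
  have hgI : g ∈ I := by rw [hg]; exact Submodule.mem_span_singleton_self g
  obtain ⟨m, hm, hmg⟩ := hgI
  have hdvd : ∀ p, InJ s p → m.cf [] ∣ p.cf [] := by
    intro p hp
    have h1 : p.cf [] ∈ I := ⟨p, hp, rfl⟩
    rw [hg, Ideal.submodule_span_eq, Ideal.mem_span_singleton] at h1
    rw [hmg]; exact h1
  have hm0 : m.cf [] ≠ 0 := by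
    intro h0
    have := hdvd p1 hp1
    rw [h0, zero_dvd_iff] at this
    exact hc1 this
  refine ⟨m, hm, hm0, fun p hp => ?_⟩
  refine ⟨gdiv m (fun x => x / m.cf []) p, ?_⟩
  symm
  refine mul_gdiv m _ (InJ s) ?_ ?_ p hp
  · intro p hp
    exact Int.mul_ediv_cancel' (hdvd p hp)
  · intro p hp a
    have h1 : InJ s (p + scal (-(p.cf [] / m.cf [])) m) := inJ_add hp (inJ_scal hm _)
    have h2 : (p + scal (-(p.cf [] / m.cf [])) m).cf [] = 0 := by
      simp only [add_cf, scal_cf]
      have := Int.ediv_mul_cancel (hdvd p hp)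
      linarith
    have h3 := inJ_rho h1 h2 a
    have h4 : rho a p - scal (p.cf [] / m.cf []) (rho a m)
        = rho a (p + scal (-(p.cf [] / m.cf [])) m) := by
      apply ext_cf
      intro w
      simp only [sub_cf, rho_cf, scal_cf, add_cf]
      ring
    rw [h4]; exact h3

/-- Rational left multiples of elements of `H` that are integral lie in `H`. -/
theorem inH_of_smul {h v : Fin 2 → NPS Al ℤ} (hh : InH h) (s : NPS Al ℚ)
    (hv : ∀ j, incl (v j) = s * incl (h j)) : InH v := by
  by_cases hz : ∀ j, h j = 0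
  · have : v = fun _ => 0 := by
      funext j
      apply incl_injective
      rw [hv, hz j, map_zero, mul_zero]
    rw [this]; exact inH_zero
  · push Not at hz
    obtain ⟨j0, hj0⟩ := hz
    have hJ : ∀ j, InJ s (h j) := fun j => ⟨v j, (hv j).symm⟩
    obtain ⟨m, hm, hm0, hdiv⟩ := exists_gen (hJ j0) hj0
    choose r hr using fun j => hdiv (h j) (hJ j)
    have h1 : InH r := by
      apply inH_of_mul _ m rfl hm0
      have : (fun j => m * r j) = h := funext fun j => (hr j).symm
      rw [this]; exact hh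
    obtain ⟨q, hq⟩ := hm
    have h2 : v = fun j => q * r j := by
      funext j
      apply incl_injective
      rw [hv, hr j, map_mul, map_mul, ← mul_assoc, hq]
    rw [h2]; exact inH_mul q h1

end Pool.Agent.MP_fb8dd6_al
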