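import Pool.Agent.Lib.MP_fb8dd6_al.Defs

/-!
Positive cones and relatively convex subgroups; leading coefficients.
-/

namespace Pool.Agent.MP_fb8dd6_al

/-- a two-sided order from a positive cone -/
theorem exists_order_of_cone {G : Type} [Group G] (C : G → Prop)
    (h1 : ¬ C 1) (hmul : ∀ x y, C x → C y → C (x * y))
    (hconj : ∀ x c, C x → C (c * x * c⁻¹)) (htot : ∀ x, x ≠ 1 → C x ∨ C x⁻¹) :
    ∃ l : LinearOrder G, IsTwoSided l ∧ ∀ a b, l.le a b ↔ (a = b ∨ C (a⁻¹ * b)) := by
  classical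
  have hanti : ∀ x, C x → C x⁻¹ → False := by
    intro x hx hx'
    apply h1
    have := hmul _ _ hx hx'
    rwa [mul_inv_cancel] at this
  let l : LinearOrder G :=
    { le := fun a b => a = b ∨ C (a⁻¹ * b)
      le_refl := fun a => Or.inl rfl
      le_trans := by
        rintro a b c (rfl | hab) (rfl | hbc)
        · exact Or.inl rfl
        · exact Or.inr hbc
        · exact Or.inr hab
        · right
          have := hmul _ _ hab hbc
          have e : a⁻¹ * b * (b⁻¹ * c) = a⁻¹ * c := by group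
          rwa [e] at this
      le_antisymm := by
        rintro a b (rfl | hab) (h | hba)
        · rfl
        · rfl
        · exact h.symm
        · exfalso
          apply hanti _ hab
          have e : (a⁻¹ * b)⁻¹ = b⁻¹ * a := by group
          rwa [e]
      le_total := by
        intro a b
        by_cases hab : a = b
        · exact Or.inl (Or.inl hab)
        · have hne : a⁻¹ * b ≠ 1 := by
            intro h
            apply hab
            have := congrArg (fun x => a * x) h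
            simp at this
            exact this.symm
          rcases htot _ hne with h | h
          · exact Or.inl (Or.inr h)
          · right; right
            have e : (a⁻¹ * b)⁻¹ = b⁻¹ * a := by group
            rwa [e] at h
      toDecidableLE := Classical.decRel _ }
  refine ⟨l, ?_, fun a b => Iff.rfl⟩
  rintro a b x y (rfl | hab)
  · exact Or.inl rfl
  · right
    have := hconj _ y⁻¹ hab
    have e : y⁻¹ * (a⁻¹ * b) * (y⁻¹)⁻¹ = (x * a * y)⁻¹ * (x * b * y) := by group
    rwa [e] at this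

theorem relativelyConvex_of_cone {G : Type} [Group G] (K : Subgroup G) (C Q : G → Prop)
    (h1 : ¬ C 1) (hmul : ∀ x y, C x → C y → C (x * y))
    (hconj : ∀ x c, C x → C (c * x * c⁻¹)) (htot : ∀ x, x ≠ 1 → C x ∨ C x⁻¹)
    (hQ1 : ∀ x, C x → x ∉ K → Q x) (hQ2 : ∀ x y, Q x → Q y → Q (x * y))
    (hQ3 : ∀ x, Q x → x ∉ K) : RelativelyConvex K := by
  obtain ⟨l, hl, hle⟩ := exists_order_of_cone C h1 hmul hconj htot
  refine ⟨l, hl, ?_⟩
  intro k₁ hk₁ k₂ hk₂ g h h'
  rw [hle] at h h'
  by_contra hg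
  rcases h with rfl | h
  · exact hg hk₁
  rcases h' with rfl | h'
  · exact hg hk₂
  have hx : k₁⁻¹ * g ∉ K := by
    intro hx
    apply hg
    have := K.mul_mem hk₁ hx
    rwa [mul_inv_cancel_left] at this
  have hy : g⁻¹ * k₂ ∉ K := by
    intro hy
    apply hg
    have := K.mul_mem hk₂ (K.inv_mem hy)
    have e : k₂ * (g⁻¹ * k₂)⁻¹ = g := by group
    rwa [e] at this
  have := hQ2 _ _ (hQ1 _ h hx) (hQ1 _ h' hy)
  apply hQ3 _ this
  have e : k₁⁻¹ * g * (g⁻¹ * k₂) = k₁⁻¹ * k₂ := by group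
  rw [e]
  exact K.mul_mem (K.inv_mem hk₁) hk₂

section leading

variable {Ω : Type} [Encodable Ω] (ℓ : Ω → ℕ)

/-- comparison of indices: first by length, then by code -/
def ILt (a b : Ω) : Prop :=
  ℓ a < ℓ b ∨ (ℓ a = ℓ b ∧ Encodable.encode a < Encodable.encode b)

theorem ilt_wf : WellFounded (ILt (Ω := Ω) ℓ) := by
  have h : WellFounded (Prod.Lex (α := ℕ) (β := ℕ) (· < ·) (· < ·)) :=
    WellFounded.prod_lex Nat.lt_wfRel.wf Nat.lt_wfRel.wf
  have h2 := InvImage.wf (fun a : Ω => (ℓ a, Encodable.encode a)) h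
  apply Subrelation.wf _ h2
  intro a b hab
  show Prod.Lex _ _ _ _
  rw [Prod.lex_def]
  exact hab

theorem ilt_tri (a b : Ω) : ILt ℓ a b ∨ a = b ∨ ILt ℓ b a := by
  unfold ILt
  rcases lt_trichotomy (ℓ a) (ℓ b) with h | h | h
  · exact Or.inl (Or.inl h)
  · rcases lt_trichotomy (Encodable.encode a) (Encodable.encode b) with h' | h' | h'
    · exact Or.inl (Or.inr ⟨h, h'⟩)
    · exact Or.inr (Or.inl (Encodable.encode_injective h'))
    · exact Or.inr (Or.inr (Or.inr ⟨h.symm, h'⟩))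
  · exact Or.inr (Or.inr (Or.inl h))

theorem ilt_trans {a b c : Ω} (h : ILt ℓ a b) (h' : ILt ℓ b c) : ILt ℓ a c := by
  unfold ILt at *; omega

variable {k : Type} [CommRing k] [LinearOrder k] [IsStrictOrderedRing k]

/-- the leading coefficient is positive -/
def LPos (F : Ω → k) : Prop := ∃ a, 0 < F a ∧ ∀ b, ILt ℓ b a → F b = 0

theorem lpos_or (F : Ω → k) (h : F ≠ 0) : LPos ℓ F ∨ LPos ℓ (-F) := by
  classical
  have hne : {a | F a ≠ 0}.Nonempty := by
    by_contra hcon
    apply h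
    funext a
    by_contra ha
    exact hcon ⟨a, ha⟩
  let a := (ilt_wf ℓ).min _ hne
  have ha : F a ≠ 0 := (ilt_wf ℓ).min_mem _ hne
  have hb : ∀ b, ILt ℓ b a → F b = 0 := by
    intro b hb
    by_contra hb'
    exact (ilt_wf ℓ).not_lt_min _ hb' hb
  rcases lt_or_gt_of_ne ha with h1 | h1
  · right
    exact ⟨a, by simpa using h1, fun b hb' => by simp [hb b hb']⟩
  · left
    exact ⟨a, h1, hb⟩

theorem not_lpos_zero : ¬ LPos ℓ (0 : Ω → k) := by
  rintro ⟨a, ha, _⟩
  simp at ha

theorem lpos_add {F E : Ω → k} (hF : LPos ℓ F) (hE : LPos ℓ E) : LPos ℓ (F + E) := by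
  obtain ⟨a, ha, ha'⟩ := hF
  obtain ⟨b, hb, hb'⟩ := hE
  rcases ilt_tri ℓ a b with h | h | h
  · refine ⟨a, ?_, ?_⟩
    · simp [hb' a h, ha]
    · intro c hc
      simp [ha' c hc, hb' c (ilt_trans ℓ hc h)]
  · subst h
    refine ⟨a, ?_, ?_⟩
    · simp only [Pi.add_apply]; exact add_pos ha hb
    · intro c hc
      simp [ha' c hc, hb' c hc]
  · refine ⟨b, ?_, ?_⟩
    · simp [ha' b h, hb]
    · intro c hc
      simp [hb' c hc, ha' c (ilt_trans ℓ hc h)]

theorem lpos_perturb {F E : Ω → k} (hF : LPos ℓ F)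
    (hE : ∀ a, (∀ b, ℓ b < ℓ a → F b = 0) → E a = 0) : LPos ℓ (F + E) := by
  obtain ⟨a, ha, ha'⟩ := hF
  have h1 : ∀ c, (ILt ℓ c a ∨ c = a) → E c = 0 := by
    intro c hc
    apply hE
    intro b hb
    apply ha'
    rcases hc with hc | rfl
    · unfold ILt at *; omega
    · exact Or.inl hb
  refine ⟨a, ?_, ?_⟩
  · simp [h1 a (Or.inr rfl), ha]
  · intro c hc
    simp [h1 c (Or.inl hc), ha' c hc]

end leading

end Pool.Agent.MP_fb8dd6_al
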