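import Mathlib

/-!
Definitions used in the statement: two-sided orders, relatively convex subgroups and
infrainvariant subgroups.
-/

namespace Pool.Agent.MP_fb8dd6_al

/-- The total order `l` on the group `G` is two-sided: `a ≤ b` implies `x a y ≤ x b y`. -/
def IsTwoSided {G : Type} [Group G] (l : LinearOrder G) : Prop :=
  ∀ a b x y : G, l.le a b → l.le (x * a * y) (x * b * y)

/-- The group `G` is orderable: it admits a two-sided total order. -/
def Orderable (G : Type) [Group G] : Prop := ∃ l : LinearOrder G, IsTwoSided l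

/-- The subgroup `K` is convex for some two-sided total order on `G`. -/
def RelativelyConvex {G : Type} [Group G] (K : Subgroup G) : Prop :=
  ∃ l : LinearOrder G, IsTwoSided l ∧
    ∀ k₁ ∈ K, ∀ k₂ ∈ K, ∀ g : G, l.le k₁ g → l.le g k₂ → g ∈ K

/-- `H` is infrainvariant: for every `g`, `H ⊆ g⁻¹ H g` or `g⁻¹ H g ⊆ H`.
Here `g⁻¹ H g` is the image of `H` under conjugation by `g⁻¹`. -/
def Infrainvariant {G : Type} [Group G] (H : Subgroup G) : Prop :=
  ∀ g : G, H ≤ H.map (MulAut.conj g⁻¹).toMonoidHom ∨ H.map (MulAut.conj g⁻¹).toMonoidHom ≤ H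

end Pool.Agent.MP_fb8dd6_al
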