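import Pool.Agent.Lib.MP_fb8dd6_al.Closure
import Pool.Agent.Lib.MP_fb8dd6_al.Cone

/-!
The group `G`, a semidirect product of pairs of series by the group of series with constant
term one, and its two-sided orders.
-/

namespace Pool.Agent.MP_fb8dd6_al

open NPS

/-- deletion of a final word -/
def rhoL {α k : Type} (L : List α) (f : NPS α k) : NPS α k := ⟨fun w => f.cf (L ++ w)⟩

theorem rhoL_mul {α k : Type} [CommRing k] (s : NPS α k) (L : List α) : ∀ f : NPS α k,
    Van L.length f → rhoL L (s * f) = s * rhoL L f := by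
  induction L with
  | nil => intro f _; rfl
  | cons a L ih =>
    intro f hf
    have h0 : f.cf [] = 0 := hf [] (by simp)
    have h1 : rhoL (a :: L) (s * f) = rhoL L (rho a (s * f)) := rfl
    have h2 : rho a (s * f) = s * rho a f := by
      rw [rho_mul, h0]
      apply ext_cf; intro w; simp
    rw [h1, h2, ih]
    · rfl
    · intro w hw
      exact hf (a :: w) (by simpa using hw)

theorem exists_proj (h : Fin 2 → NPS Al ℚ) :
    ∃ π : (Fin 2 → NPS Al ℚ) → (Fin 2 → NPS Al ℚ),
      (∀ u v, π (u + v) = π u + π v) ∧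
      (∀ v, ∃ s : NPS Al ℚ, ∀ j, v j = π v j + s * h j) ∧
      (∀ s : NPS Al ℚ, π (fun j => s * h j) = 0) ∧
      (∀ n u, (∀ j, Van n (u j)) → ∀ j, Van n (π u j)) := by
  classical
  by_cases hz : ∀ j, h j = 0
  · refine ⟨id, fun _ _ => rfl, fun v => ⟨0, fun j => by simp⟩, ?_, fun n u hu => hu⟩
    intro s
    funext j
    simp [hz]
  · push Not at hz
    have hex : ∃ n, ∃ L : List Al, ∃ j, L.length = n ∧ (h j).cf L ≠ 0 := by
      obtain ⟨j, hj⟩ := hz
      by_contra hcon
      push Not at hcon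
      exact hj (ext_cf fun w => hcon w.length w j rfl)
    let n₀ := Nat.find hex
    obtain ⟨L, j₀, hL, hne⟩ := Nat.find_spec hex
    have hmin : ∀ j, Van L.length (h j) := by
      intro j w hw
      by_contra hcon
      exact Nat.find_min hex (by rw [hL] at hw; exact hw) ⟨w, j, rfl, hcon⟩
    let u := rhoL L (h j₀)
    have hu0 : u.cf [] ≠ 0 := by
      show (h j₀).cf (L ++ []) ≠ 0
      rw [List.append_nil]; exact hne
    obtain ⟨u', huu', _, _⟩ := exists_inv u (u.cf [])⁻¹ (mul_inv_cancel₀ hu0)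
    let coef : (Fin 2 → NPS Al ℚ) → NPS Al ℚ := fun v => rhoL L (v j₀) * u'
    have hcadd : ∀ a b, coef (a + b) = coef a + coef b := by
      intro a b
      show rhoL L (a j₀ + b j₀) * u' = _
      have : rhoL L (a j₀ + b j₀) = rhoL L (a j₀) + rhoL L (b j₀) := rfl
      rw [this, add_mul]
    have hcs : ∀ s : NPS Al ℚ, coef (fun j => s * h j) = s := by
      intro s
      show rhoL L (s * h j₀) * u' = s
      rw [rhoL_mul s L (h j₀) (hmin j₀), mul_assoc, huu', mul_one]
    refine ⟨fun v j => v j - coef v * h j, ?_, ?_, ?_, ?_⟩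
    · intro a b
      funext j
      show (a + b) j - coef (a + b) * h j = (a j - coef a * h j) + (b j - coef b * h j)
      rw [hcadd, add_mul, Pi.add_apply]
      abel
    · intro v
      exact ⟨coef v, fun j => (sub_add_cancel _ _).symm⟩
    · intro s
      funext j
      show s * h j - coef (fun j => s * h j) * h j = 0
      rw [hcs, sub_self]
    · intro n v hv j
      have h1 : Van (n - L.length) (rhoL L (v j₀)) := by
        intro w hw
        apply hv j₀
        rw [List.length_append]; omega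
      have h2 : Van (n - L.length + 0) (coef v) := h1.mul (van_zero _)
      have h3 : Van (n - L.length + 0 + L.length) (coef v * h j) := h2.mul (hmin j)
      have h4 := h3.mono (show n ≤ n - L.length + 0 + L.length by omega)
      intro w hw
      show (v j).cf w - (coef v * h j).cf w = 0
      rw [hv j w hw, h4 w hw, sub_zero]

/-- units with constant term one -/
def B1 : Subgroup (NPS Al ℤ)ˣ where
  carrier := {u | (u : NPS Al ℤ).cf [] = 1}
  mul_mem' := by
    intro a b ha hb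
    have ha' : (a : NPS Al ℤ).cf [] = 1 := ha
    have hb' : (b : NPS Al ℤ).cf [] = 1 := hb
    show ((a * b : (NPS Al ℤ)ˣ) : NPS Al ℤ).cf [] = 1
    rw [Units.val_mul, mul_nil, ha', hb', one_mul]
  one_mem' := rfl
  inv_mem' := by
    intro a ha
    have ha' : (a : NPS Al ℤ).cf [] = 1 := ha
    have h := congrArg (fun f => NPS.cf f []) a.mul_inv
    simp only [mul_nil, one_nil] at h
    rw [ha', one_mul] at h
    exact h

/-- the group of the counterexample -/
@[ext] structure Gp : Type where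
  /-- the acting part -/
  b : B1
  /-- the module part -/
  v : Fin 2 → NPS Al ℤ

namespace Gp

/-- the series of the acting part -/
def β (x : Gp) : NPS Al ℤ := ((x.b : (NPS Al ℤ)ˣ) : NPS Al ℤ)

instance : Mul Gp := ⟨fun x y => ⟨x.b * y.b, fun j => x.v j + x.β * y.v j⟩⟩
instance : One Gp := ⟨⟨1, fun _ => 0⟩⟩
instance : Inv Gp := ⟨fun x => ⟨x.b⁻¹, fun j => -(((x.b⁻¹ : B1) : (NPS Al ℤ)ˣ) : NPS Al ℤ) * x.v j⟩⟩

theorem mul_b (x y : Gp) : (x * y).b = x.b * y.b := rfl
theorem mul_v (x y : Gp) (j : Fin 2) : (x * y).v j = x.v j + x.β * y.v j := rfl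
theorem one_b : (1 : Gp).b = 1 := rfl
theorem one_v (j : Fin 2) : (1 : Gp).v j = 0 := rfl
theorem inv_b (x : Gp) : (x⁻¹).b = x.b⁻¹ := rfl
theorem inv_v (x : Gp) (j : Fin 2) : (x⁻¹).v j = -(x⁻¹).β * x.v j := rfl
theorem mul_β (x y : Gp) : (x * y).β = x.β * y.β := rfl
theorem one_β : (1 : Gp).β = 1 := rfl
theorem inv_β_mul (x : Gp) : (x⁻¹).β * x.β = 1 := (x.b : (NPS Al ℤ)ˣ).inv_mul
theorem β_mul_inv (x : Gp) : x.β * (x⁻¹).β = 1 := (x.b : (NPS Al ℤ)ˣ).mul_inv
theorem β_nil (x : Gp) : x.β.cf [] = 1 := x.b.2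
theorem β_eq_one (x : Gp) : x.β = 1 ↔ x.b = 1 := by
  constructor
  · intro h
    apply Subtype.ext
    apply Units.ext
    exact h
  · intro h
    show ((x.b : (NPS Al ℤ)ˣ) : NPS Al ℤ) = 1
    rw [h]; rfl

theorem ext_β {x y : Gp} (h : x.β = y.β) (h' : ∀ j, x.v j = y.v j) : x = y := by
  apply Gp.ext
  · apply Subtype.ext
    apply Units.ext
    exact h
  · exact funext h'

instance : Group Gp :=
  Group.ofLeftAxioms
    (by
      intro a b c
      apply ext_β
      · simp only [mul_β, mul_assoc]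
      · intro j
        simp only [mul_v, mul_β, mul_add, mul_assoc, add_assoc])
    (by
      intro a
      apply ext_β
      · rw [mul_β, one_β, one_mul]
      · intro j; rw [mul_v, one_v, one_β, zero_add, one_mul])
    (by
      intro a
      apply ext_β
      · rw [mul_β, inv_β_mul, one_β]
      · intro j
        rw [mul_v, inv_v, one_v, neg_mul, neg_add_cancel])

end Gp

section positivity

/-- positivity of a series -/
def LP (f : NPS Al ℤ) : Prop := LPos List.length f.cf

/-- positivity of a pair of series -/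
def VP {k : Type} [CommRing k] [LinearOrder k] [IsStrictOrderedRing k]
    (u : Fin 2 → NPS Al k) : Prop :=
  LPos (fun p : List Al × Fin 2 => p.1.length) (fun p => (u p.2).cf p.1)

theorem van_of_short {k : Type} [CommRing k] {f : NPS Al k} {w : List Al}
    (h : ∀ w', w'.length < w.length → f.cf w' = 0) : Van w.length f := fun w' hw' => h w' hw'

theorem van_one {k : Type} [CommRing k] {y : NPS Al k} (h : y.cf [] = 0) : Van 1 y := by
  intro w hw
  have : w = [] := by
    cases w with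
    | nil => rfl
    | cons a w => simp at hw
  rw [this]; exact h

theorem lp_add {f g : NPS Al ℤ} (hf : LP f) (hg : LP g) : LP (f + g) := lpos_add _ hf hg

theorem lp_mul_left {f y : NPS Al ℤ} (hf : LP f) (hy : y.cf [] = 0) : LP (f + y * f) := by
  refine lpos_perturb _ hf ?_
  intro w hw
  have := (van_one hy).mul (van_of_short hw)
  exact this w (by omega)

theorem lp_mul_right {f y : NPS Al ℤ} (hf : LP f) (hy : y.cf [] = 0) : LP (f + f * y) := by
  refine lpos_perturb _ hf ?_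
  intro w hw
  have := (van_of_short hw).mul (van_one hy)
  exact this w (by omega)

theorem not_lp_zero : ¬ LP 0 := by
  intro h
  exact not_lpos_zero _ h

theorem lp_or {f : NPS Al ℤ} (hf : f ≠ 0) : LP f ∨ LP (-f) := by
  apply lpos_or
  intro h
  apply hf
  exact NPS.ext h

variable {k : Type} [CommRing k] [LinearOrder k] [IsStrictOrderedRing k]

theorem vp_add {u v : Fin 2 → NPS Al k} (hu : VP u) (hv : VP v) : VP (u + v) :=
  lpos_add _ hu hv

theorem not_vp_zero : ¬ VP (0 : Fin 2 → NPS Al k) := by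
  intro h
  exact not_lpos_zero _ h

theorem vp_or {u : Fin 2 → NPS Al k} (hu : u ≠ 0) : VP u ∨ VP (-u) := by
  apply lpos_or
  intro h
  apply hu
  funext j
  apply ext_cf
  intro w
  exact congrFun h (w, j)

theorem vp_perturb {u e : Fin 2 → NPS Al k} (hu : VP u)
    (he : ∀ n, (∀ j, Van n (u j)) → ∀ j, Van (n + 1) (e j)) : VP (u + e) := by
  refine lpos_perturb _ hu ?_
  rintro ⟨w, j⟩ hw
  apply he w.length
  · intro j' w' hw'
    exact hw (w', j') hw'
  · exact Nat.lt_succ_self _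

end positivity

section order

variable (π : (Fin 2 → NPS Al ℚ) → (Fin 2 → NPS Al ℚ))

/-- the module part with rational coefficients -/
def iv (x : Gp) : Fin 2 → NPS Al ℚ := fun j => incl (x.v j)

/-- positivity modulo the convex subgroup -/
def Q (x : Gp) : Prop := LP (x.β - 1) ∨ (x.β = 1 ∧ VP (π (iv x)))

/-- positivity -/
def C (x : Gp) : Prop := Q π x ∨ (x.β = 1 ∧ π (iv x) = 0 ∧ VP x.v)

variable {π} {h : Fin 2 → NPS Al ℚ}

theorem iv_mul_of {x y : Gp} (hx : x.β = 1) : iv (x * y) = iv x + iv y := by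
  funext j
  show incl ((x * y).v j) = incl (x.v j) + incl (y.v j)
  rw [Gp.mul_v, hx, one_mul, map_add]

theorem v_mul_of {x y : Gp} (hx : x.β = 1) : (x * y).v = x.v + y.v := by
  funext j
  rw [Gp.mul_v, hx, one_mul]; rfl

theorem lp_mul {a b : NPS Al ℤ} (ha0 : a.cf [] = 1) (ha : LP (a - 1)) (hb : LP (b - 1)) :
    LP (a * b - 1) := by
  have e : a * b - 1 = (a - 1) + ((b - 1) + (a - 1) * (b - 1)) := by noncomm_ring
  rw [e]
  apply lp_add ha
  apply lp_mul_left hb
  simp [ha0]

theorem Q_mul (hadd : ∀ u v, π (u + v) = π u + π v) (x y : Gp) (hx : Q π x) (hy : Q π y) :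
    Q π (x * y) := by
  rcases hx with hx | ⟨hx1, hx2⟩ <;> rcases hy with hy | ⟨hy1, hy2⟩
  · left
    rw [Gp.mul_β]
    exact lp_mul (Gp.β_nil x) hx hy
  · left
    rw [Gp.mul_β, hy1, mul_one]; exact hx
  · left
    rw [Gp.mul_β, hx1, one_mul]; exact hy
  · right
    refine ⟨by rw [Gp.mul_β, hx1, hy1, one_mul], ?_⟩
    rw [iv_mul_of hx1, hadd]
    exact vp_add hx2 hy2

theorem C_mul (hadd : ∀ u v, π (u + v) = π u + π v) (x y : Gp) (hx : C π x) (hy : C π y) :
    C π (x * y) := by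
  rcases hx with hx | ⟨hx1, hx2, hx3⟩ <;> rcases hy with hy | ⟨hy1, hy2, hy3⟩
  · exact Or.inl (Q_mul hadd x y hx hy)
  · left
    rcases hx with hx | ⟨hx1, hx2⟩
    · left
      rw [Gp.mul_β, hy1, mul_one]; exact hx
    · right
      refine ⟨by rw [Gp.mul_β, hx1, hy1, one_mul], ?_⟩
      rw [iv_mul_of hx1, hadd, hy2, add_zero]; exact hx2
  · left
    rcases hy with hy | ⟨hy1, hy2⟩
    · left
      rw [Gp.mul_β, hx1, one_mul]; exact hy
    · right
      refine ⟨by rw [Gp.mul_β, hx1, hy1, one_mul], ?_⟩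
      rw [iv_mul_of hx1, hadd, hx2, zero_add]; exact hy2
  · right
    refine ⟨by rw [Gp.mul_β, hx1, hy1, one_mul], ?_, ?_⟩
    · rw [iv_mul_of hx1, hadd, hx2, hy2, add_zero]
    · rw [v_mul_of hx1]; exact vp_add hx3 hy3

theorem conj_β (x c : Gp) : (c * x * c⁻¹).β = c.β * x.β * (c⁻¹).β := rfl

theorem conj_v {x : Gp} (c : Gp) (hx : x.β = 1) (j : Fin 2) :
    (c * x * c⁻¹).v j = c.β * x.v j := by
  rw [Gp.mul_v, Gp.mul_v, Gp.mul_β, hx, mul_one, Gp.inv_v, ← mul_assoc, mul_neg, Gp.β_mul_inv]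
  noncomm_ring

theorem lp_conj {x : Gp} (c : Gp) (hx : LP (x.β - 1)) : LP ((c * x * c⁻¹).β - 1) := by
  have e : (c * x * c⁻¹).β - 1 = (c.β * (x.β - 1)) * (c⁻¹).β := by
    rw [conj_β, mul_sub, sub_mul, mul_one, Gp.β_mul_inv]
  have e2 : c.β * (x.β - 1) = (x.β - 1) + (c.β - 1) * (x.β - 1) := by noncomm_ring
  have h2 : LP (c.β * (x.β - 1)) := by
    rw [e2]; apply lp_mul_left hx; simp [Gp.β_nil]
  have e3 : (c.β * (x.β - 1)) * (c⁻¹).β
      = (c.β * (x.β - 1)) + (c.β * (x.β - 1)) * ((c⁻¹).β - 1) := by noncomm_ring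
  rw [e, e3]
  apply lp_mul_right h2
  simp [Gp.β_nil]

theorem pi_pi (hadd : ∀ u v, π (u + v) = π u + π v)
    (hdec : ∀ v, ∃ s : NPS Al ℚ, ∀ j, v j = π v j + s * h j)
    (hker : ∀ s : NPS Al ℚ, π (fun j => s * h j) = 0) (v : Fin 2 → NPS Al ℚ) :
    π (π v) = π v := by
  obtain ⟨s, hs⟩ := hdec v
  have e : v = π v + (fun j => s * h j) := funext hs
  have e2 := congrArg π e
  rw [hadd, hker, add_zero] at e2
  exact e2.symm

theorem pi_conj (hadd : ∀ u v, π (u + v) = π u + π v)
    (hdec : ∀ v, ∃ s : NPS Al ℚ, ∀ j, v j = π v j + s * h j)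
    (hker : ∀ s : NPS Al ℚ, π (fun j => s * h j) = 0) {x : Gp} (c : Gp) (hx : x.β = 1) :
    π (iv (c * x * c⁻¹)) = π (iv x) + π (fun j => (incl c.β - 1) * π (iv x) j) := by
  obtain ⟨s, hs⟩ := hdec (iv x)
  have e1 : iv (c * x * c⁻¹) = (π (iv x) + fun j => (incl c.β - 1) * π (iv x) j)
      + fun j => (incl c.β * s) * h j := by
    funext j
    show incl ((c * x * c⁻¹).v j) = (π (iv x) j + (incl c.β - 1) * π (iv x) j)
      + (incl c.β * s) * h j
    rw [conj_v c hx, map_mul]
    have e2 : incl (x.v j) = π (iv x) j + s * h j := hs j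
    rw [e2]
    noncomm_ring
  rw [e1, hadd, hker, add_zero, hadd, pi_pi hadd hdec hker]

theorem Q_conj (hadd : ∀ u v, π (u + v) = π u + π v)
    (hdec : ∀ v, ∃ s : NPS Al ℚ, ∀ j, v j = π v j + s * h j)
    (hker : ∀ s : NPS Al ℚ, π (fun j => s * h j) = 0)
    (hvan : ∀ n u, (∀ j, Van n (u j)) → ∀ j, Van n (π u j))
    (x c : Gp) (hx : Q π x) : Q π (c * x * c⁻¹) := by
  rcases hx with hx | ⟨hx1, hx2⟩
  · left; exact lp_conj c hx
  · right
    refine ⟨by rw [conj_β, hx1, mul_one, Gp.β_mul_inv], ?_⟩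
    rw [pi_conj hadd hdec hker c hx1]
    apply vp_perturb hx2
    intro n hn
    apply hvan
    intro j
    have h0 : (incl c.β - 1).cf [] = 0 := by simp [incl, Gp.β_nil]
    have := (van_one h0).mul (hn j)
    exact this.mono (by omega)

theorem C_conj (hadd : ∀ u v, π (u + v) = π u + π v)
    (hdec : ∀ v, ∃ s : NPS Al ℚ, ∀ j, v j = π v j + s * h j)
    (hker : ∀ s : NPS Al ℚ, π (fun j => s * h j) = 0)
    (hvan : ∀ n u, (∀ j, Van n (u j)) → ∀ j, Van n (π u j))
    (x c : Gp) (hx : C π x) : C π (c * x * c⁻¹) := by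
  rcases hx with hx | ⟨hx1, hx2, hx3⟩
  · exact Or.inl (Q_conj hadd hdec hker hvan x c hx)
  · right
    refine ⟨by rw [conj_β, hx1, mul_one, Gp.β_mul_inv], ?_, ?_⟩
    · rw [pi_conj hadd hdec hker c hx1, hx2]
      have e : (fun j => (incl c.β - 1) * (0 : Fin 2 → NPS Al ℚ) j)
          = fun j => (0 : NPS Al ℚ) * h j := by
        funext j; simp
      rw [e, hker, add_zero]
    · have e : (c * x * c⁻¹).v = x.v + fun j => (c.β - 1) * x.v j := by
        funext j
        show (c * x * c⁻¹).v j = x.v j + (c.β - 1) * x.v j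
        rw [conj_v c hx1]; noncomm_ring
      rw [e]
      apply vp_perturb hx3
      intro n hn j
      have h0 : (c.β - 1).cf [] = 0 := by simp [Gp.β_nil]
      have := (van_one h0).mul (hn j)
      exact this.mono (by omega)

theorem pi_zero (hadd : ∀ u v, π (u + v) = π u + π v) : π 0 = 0 := by
  have := hadd 0 0
  rw [add_zero] at this
  exact left_eq_add.mp this

theorem pi_neg (hadd : ∀ u v, π (u + v) = π u + π v) (v : Fin 2 → NPS Al ℚ) :
    π (-v) = - π v := by
  have := hadd v (-v)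
  rw [add_neg_cancel, pi_zero hadd] at this
  exact eq_neg_of_add_eq_zero_right this.symm

theorem not_Q_of {x : Gp} (h1 : x.β = 1) (h2 : π (iv x) = 0) : ¬ Q π x := by
  rintro (hx | ⟨_, hx⟩)
  · rw [h1, sub_self] at hx; exact not_lp_zero hx
  · rw [h2] at hx; exact not_vp_zero hx

theorem iv_one : iv 1 = 0 := by
  funext j
  show incl ((1 : Gp).v j) = 0
  rw [Gp.one_v, map_zero]

theorem not_C_one (hadd : ∀ u v, π (u + v) = π u + π v) : ¬ C π 1 := by
  rintro (hx | ⟨_, _, hx⟩)
  · apply not_Q_of _ _ hx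
    · rfl
    · rw [iv_one, pi_zero hadd]
  · have : (1 : Gp).v = 0 := rfl
    rw [this] at hx; exact not_vp_zero hx

theorem C_total (hadd : ∀ u v, π (u + v) = π u + π v) (x : Gp) (hx : x ≠ 1) :
    C π x ∨ C π x⁻¹ := by
  by_cases h1 : x.β = 1
  · have h1' : (x⁻¹).β = 1 := by
      have := Gp.inv_β_mul x
      rwa [h1, mul_one] at this
    have hv : (x⁻¹).v = - x.v := by
      funext j
      rw [Gp.inv_v, h1', neg_mul, one_mul]; rfl
    have hiv : iv x⁻¹ = - iv x := by
      funext j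
      show incl ((x⁻¹).v j) = - incl (x.v j)
      rw [hv]
      show incl (-(x.v j)) = _
      rw [map_neg]
    by_cases h2 : π (iv x) = 0
    · have hxv : x.v ≠ 0 := by
        intro h3
        apply hx
        apply Gp.ext_β h1
        intro j; rw [h3]; rfl
      rcases vp_or hxv with h4 | h4
      · exact Or.inl (Or.inr ⟨h1, h2, h4⟩)
      · refine Or.inr (Or.inr ⟨h1', ?_, ?_⟩)
        · rw [hiv, pi_neg hadd, h2, neg_zero]
        · rw [hv]; exact h4
    · rcases vp_or h2 with h4 | h4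
      · exact Or.inl (Or.inl (Or.inr ⟨h1, h4⟩))
      · refine Or.inr (Or.inl (Or.inr ⟨h1', ?_⟩))
        rw [hiv, pi_neg hadd]; exact h4
  · have h1' : x.β - 1 ≠ 0 := fun h => h1 (sub_eq_zero.mp h)
    rcases lp_or h1' with h4 | h4
    · exact Or.inl (Or.inl (Or.inl h4))
    · right; left; left
      have e : (x⁻¹).β - 1 = -(x.β - 1) + -(x.β - 1) * ((x⁻¹).β - 1) := by
        have := Gp.β_mul_inv x
        have e2 : -(x.β - 1) + -(x.β - 1) * ((x⁻¹).β - 1) = (x⁻¹).β - x.β * (x⁻¹).β := by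
          noncomm_ring
        rw [e2, this]
      rw [e]
      apply lp_mul_right h4
      simp [Gp.β_nil]

/-- the convex subgroup attached to `h` -/
def Kh (h : Fin 2 → NPS Al ℚ) : Subgroup Gp where
  carrier := {x | x.β = 1 ∧ ∃ s : NPS Al ℚ, ∀ j, incl (x.v j) = s * h j}
  mul_mem' := by
    rintro x y ⟨hx, s, hs⟩ ⟨hy, t, ht⟩
    refine ⟨by rw [Gp.mul_β, hx, hy, one_mul], s + t, fun j => ?_⟩
    rw [Gp.mul_v, hx, one_mul, map_add, hs, ht, add_mul]
  one_mem' := ⟨rfl, 0, fun j => by rw [Gp.one_v, map_zero, zero_mul]⟩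
  inv_mem' := by
    rintro x ⟨hx, s, hs⟩
    have h1' : (x⁻¹).β = 1 := by
      have := Gp.inv_β_mul x
      rwa [hx, mul_one] at this
    refine ⟨h1', -s, fun j => ?_⟩
    rw [Gp.inv_v, h1', neg_mul, one_mul, map_neg, hs, neg_mul]

theorem relativelyConvex_Kh (h : Fin 2 → NPS Al ℚ) : RelativelyConvex (Kh h) := by
  obtain ⟨π, hadd, hdec, hker, hvan⟩ := exists_proj h
  have hmem : ∀ x : Gp, x ∈ Kh h ↔ (x.β = 1 ∧ π (iv x) = 0) := by
    intro x
    constructor
    · rintro ⟨h1, s, hs⟩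
      refine ⟨h1, ?_⟩
      have : iv x = fun j => s * h j := funext hs
      rw [this, hker]
    · rintro ⟨h1, h2⟩
      obtain ⟨s, hs⟩ := hdec (iv x)
      refine ⟨h1, s, fun j => ?_⟩
      have := hs j
      rw [h2] at this
      show iv x j = s * h j
      rw [this, Pi.zero_apply, zero_add]
  refine relativelyConvex_of_cone (Kh h) (C π) (Q π) (not_C_one hadd) (C_mul hadd)
    (C_conj hadd hdec hker hvan) (C_total hadd) ?_ (Q_mul hadd) ?_
  · rintro x (hx | ⟨h1, h2, _⟩) hxK
    · exact hx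
    · exact absurd ((hmem x).mpr ⟨h1, h2⟩) hxK
  · intro x hx hxK
    obtain ⟨h1, h2⟩ := (hmem x).mp hxK
    exact not_Q_of h1 h2 hx

end order

end Pool.Agent.MP_fb8dd6_al
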