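import Mathlib

/-!
Noncommutative power series in letters from a type `α` with coefficients in a commutative ring,
as functions on words.  A word is a list whose HEAD is the LAST letter of the word.
-/

namespace Pool.Agent.MP_fb8dd6_al

/-- Noncommutative power series; the head of the list is the last letter of the word. -/
@[ext] structure NPS (α k : Type) : Type where
  /-- the coefficient function -/
  cf : List α → k

namespace NPS

variable {α k k' : Type}

/-- Deletion of the last letter `a`. -/
def rho (a : α) (f : NPS α k) : NPS α k := ⟨fun w => f.cf (a :: w)⟩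

@[simp] theorem rho_cf (a : α) (f : NPS α k) (w : List α) : (rho a f).cf w = f.cf (a :: w) := rfl

theorem ext_cf {f g : NPS α k} (h : ∀ w, f.cf w = g.cf w) : f = g := NPS.ext (funext h)

section basic
variable [CommRing k]

instance : Zero (NPS α k) := ⟨⟨fun _ => 0⟩⟩
instance : Add (NPS α k) := ⟨fun f g => ⟨fun w => f.cf w + g.cf w⟩⟩
instance : Neg (NPS α k) := ⟨fun f => ⟨fun w => - f.cf w⟩⟩
instance : Sub (NPS α k) := ⟨fun f g => ⟨fun w => f.cf w - g.cf w⟩⟩
instance : One (NPS α k) := ⟨⟨fun w => if w.isEmpty then 1 else 0⟩⟩

@[simp] theorem add_cf (f g : NPS α k) (w : List α) : (f + g).cf w = f.cf w + g.cf w := rfl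
@[simp] theorem sub_cf (f g : NPS α k) (w : List α) : (f - g).cf w = f.cf w - g.cf w := rfl
@[simp] theorem neg_cf (f : NPS α k) (w : List α) : (-f).cf w = - f.cf w := rfl
@[simp] theorem zero_cf (w : List α) : (0 : NPS α k).cf w = 0 := rfl
@[simp] theorem one_nil : (1 : NPS α k).cf [] = 1 := rfl
@[simp] theorem one_cons (a : α) (w : List α) : (1 : NPS α k).cf (a :: w) = 0 := rfl

theorem rho_add (a : α) (f g : NPS α k) : rho a (f + g) = rho a f + rho a g := rfl
theorem rho_sub (a : α) (f g : NPS α k) : rho a (f - g) = rho a f - rho a g := rfl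
theorem rho_zero (a : α) : rho a (0 : NPS α k) = 0 := rfl
theorem rho_one (a : α) : rho a (1 : NPS α k) = 0 := rfl

/-- scalar multiplication by a coefficient -/
def scal (c : k) (f : NPS α k) : NPS α k := ⟨fun w => c * f.cf w⟩

@[simp] theorem scal_cf (c : k) (f : NPS α k) (w : List α) : (scal c f).cf w = c * f.cf w := rfl

/-- the product of series, by recursion on the last letter -/
def mulAux (f : NPS α k) : NPS α k → List α → k
  | g, [] => f.cf [] * g.cf []
  | g, a :: w => mulAux f (rho a g) w + f.cf (a :: w) * g.cf []

theorem mulAux_add_right (f : NPS α k) (w : List α) : ∀ g h : NPS α k,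
    mulAux f (g + h) w = mulAux f g w + mulAux f h w := by
  induction w with
  | nil => intro g h; simp only [mulAux, add_cf]; ring
  | cons a w ih => intro g h; simp only [mulAux, add_cf, rho_add, ih]; ring

theorem mulAux_scal_right (f : NPS α k) (c : k) (w : List α) : ∀ g : NPS α k,
    mulAux f (scal c g) w = c * mulAux f g w := by
  induction w with
  | nil => intro g; simp only [mulAux, scal_cf]; ring
  | cons a w ih =>
    intro g
    have : rho a (scal c g) = scal c (rho a g) := rfl
    simp only [mulAux, scal_cf, this, ih]; ring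

theorem mulAux_add_left (w : List α) : ∀ f g h : NPS α k,
    mulAux (f + g) h w = mulAux f h w + mulAux g h w := by
  induction w with
  | nil => intro f g h; simp only [mulAux, add_cf]; ring
  | cons a w ih => intro f g h; simp only [mulAux, add_cf, ih]; ring

theorem mulAux_zero_left (w : List α) : ∀ g : NPS α k, mulAux 0 g w = 0 := by
  induction w with
  | nil => intro g; simp [mulAux]
  | cons a w ih => intro g; simp [mulAux, ih]

theorem mulAux_zero_right (f : NPS α k) (w : List α) : mulAux f 0 w = 0 := by
  induction w with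
  | nil => simp [mulAux]
  | cons a w ih => simp [mulAux, rho_zero, ih]

instance : Mul (NPS α k) := ⟨fun f g => ⟨mulAux f g⟩⟩

theorem mul_nil (f g : NPS α k) : (f * g).cf [] = f.cf [] * g.cf [] := rfl

theorem mul_cons (f g : NPS α k) (a : α) (w : List α) :
    (f * g).cf (a :: w) = (f * rho a g).cf w + f.cf (a :: w) * g.cf [] := rfl

theorem rho_mul (f g : NPS α k) (a : α) :
    rho a (f * g) = f * rho a g + scal (g.cf []) (rho a f) := by
  apply ext_cf
  intro w
  rw [rho_cf, mul_cons, add_cf, scal_cf, rho_cf, mul_comm (f.cf (a :: w))]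

theorem mul_scal (f : NPS α k) (c : k) (g : NPS α k) : f * scal c g = scal c (f * g) :=
  ext_cf fun w => mulAux_scal_right f c w g

theorem add_mul' (f g h : NPS α k) : (f + g) * h = f * h + g * h :=
  ext_cf fun w => mulAux_add_left w f g h

theorem mul_add' (f g h : NPS α k) : f * (g + h) = f * g + f * h :=
  ext_cf fun w => mulAux_add_right f w g h

theorem mul_assoc' (f g : NPS α k) : ∀ h : NPS α k, f * g * h = f * (g * h) := by
  have key : ∀ w : List α, ∀ h : NPS α k, (f * g * h).cf w = (f * (g * h)).cf w := by
    intro w
    induction w with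
    | nil => intro h; simp only [mul_nil]; ring
    | cons a w ih =>
      intro h
      rw [mul_cons, mul_cons f g, ih, mul_cons f (g * h), rho_mul, mul_add', mul_scal]
      simp only [add_cf, scal_cf, mul_nil]
      ring
  intro h; exact ext_cf fun w => key w h

theorem one_mul' (f : NPS α k) : 1 * f = f := by
  have key : ∀ w : List α, ∀ f : NPS α k, (1 * f).cf w = f.cf w := by
    intro w
    induction w with
    | nil => intro f; simp [mul_nil]
    | cons a w ih => intro f; rw [mul_cons, ih]; simp
  exact ext_cf fun w => key w f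

theorem mul_one' (f : NPS α k) : f * 1 = f := by
  apply ext_cf
  intro w
  cases w with
  | nil => simp [mul_nil]
  | cons a w =>
    rw [mul_cons, rho_one]
    have : (f * 0).cf w = 0 := mulAux_zero_right f w
    rw [this]; simp

instance : Ring (NPS α k) where
  add_assoc f g h := ext_cf fun _ => add_assoc _ _ _
  zero_add f := ext_cf fun _ => zero_add _
  add_zero f := ext_cf fun _ => add_zero _
  add_comm f g := ext_cf fun _ => add_comm _ _
  nsmul n f := ⟨fun w => n • f.cf w⟩
  nsmul_zero f := ext_cf fun w => zero_nsmul _
  nsmul_succ n f := ext_cf fun w => succ_nsmul _ _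
  zsmul n f := ⟨fun w => n • f.cf w⟩
  zsmul_zero' f := ext_cf fun w => zero_zsmul _
  zsmul_succ' n f := ext_cf fun w => SubNegMonoid.zsmul_succ' _ _
  zsmul_neg' n f := ext_cf fun w => SubNegMonoid.zsmul_neg' _ _
  sub_eq_add_neg f g := ext_cf fun w => sub_eq_add_neg _ _
  neg_add_cancel f := ext_cf fun w => neg_add_cancel _
  left_distrib := mul_add'
  right_distrib := add_mul'
  zero_mul f := ext_cf fun w => mulAux_zero_left w f
  mul_zero f := ext_cf fun w => mulAux_zero_right f w
  mul_assoc := mul_assoc'
  one_mul := one_mul'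
  mul_one := mul_one'

/-- `f` vanishes on words of length `< n` -/
def Van (n : ℕ) (f : NPS α k) : Prop := ∀ w : List α, w.length < n → f.cf w = 0

theorem Van.mono {m n : ℕ} {f : NPS α k} (h : Van n f) (hmn : m ≤ n) : Van m f :=
  fun w hw => h w (lt_of_lt_of_le hw hmn)

theorem van_zero (f : NPS α k) : Van 0 f := fun _ hw => absurd hw (Nat.not_lt_zero _)

theorem Van.mul {m : ℕ} {f : NPS α k} (hf : Van m f) :
    ∀ {n : ℕ} {g : NPS α k}, Van n g → Van (m + n) (f * g) := by
  intro n g hg w
  induction w generalizing n g with
  | nil =>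
    intro hw
    rw [mul_nil]
    rcases Nat.eq_zero_or_pos m with h | h
    · rw [hg [] (by simp at hw ⊢; omega), mul_zero]
    · rw [hf [] (by simpa using h), zero_mul]
  | cons a w ih =>
    intro hw
    rw [mul_cons]
    cases n with
    | zero =>
      rw [hf (a :: w) (by simpa using hw), zero_mul, add_zero]
      exact ih (van_zero _) (by simp at hw ⊢; omega)
    | succ n =>
      rw [hg [] (by simp), mul_zero, add_zero]
      refine ih (n := n) (g := rho a g) ?_ (by simp at hw ⊢; omega)
      intro u hu
      exact hg (a :: u) (by simpa using hu)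

theorem eq_zero_of_van {f : NPS α k} (h : ∀ n, Van n f) : f = 0 :=
  ext_cf fun w => h (w.length + 1) w (Nat.lt_succ_self _)

/-- a series all of whose letter deletions are right multiples of itself and which has zero
constant term vanishes -/
theorem eq_zero_of_rho {m : NPS α k} (h0 : m.cf [] = 0) (h : ∀ a, ∃ z, rho a m = m * z) :
    m = 0 := by
  apply eq_zero_of_van
  intro n
  induction n with
  | zero => exact van_zero m
  | succ n ih =>
    intro w hw
    cases w with
    | nil => exact h0
    | cons a w =>
      obtain ⟨z, hz⟩ := h a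
      have := (Van.mul ih (van_zero z)) w (by simpa using hw)
      rw [← hz] at this
      exact this

end basic

section field
variable {F : Type} [Field F]

theorem const_zero_of_mul_eq_zero {m x : NPS α F} (hm : m ≠ 0) (h : m * x = 0) :
    x.cf [] = 0 := by
  by_contra hx
  apply hm
  apply eq_zero_of_rho
  · have := congrArg (fun f => NPS.cf f []) h
    simp only [mul_nil, zero_cf] at this
    rcases mul_eq_zero.mp this with h | h
    · exact h
    · exact absurd h hx
  · intro a
    refine ⟨scal (-(x.cf [])⁻¹) (rho a x), ?_⟩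
    have h1 := rho_mul m x a
    rw [h, rho_zero] at h1
    rw [mul_scal]
    apply ext_cf
    intro w
    have h2 := congrArg (fun f => NPS.cf f w) h1
    simp only [add_cf, scal_cf, rho_cf, zero_cf] at h2 ⊢
    field_simp
    linear_combination -h2

theorem mul_eq_zero_right {m x : NPS α F} (hm : m ≠ 0) (h : m * x = 0) : x = 0 := by
  have key : ∀ w : List α, ∀ x : NPS α F, m * x = 0 → x.cf w = 0 := by
    intro w
    induction w with
    | nil => intro x hx; exact const_zero_of_mul_eq_zero hm hx
    | cons a w ih =>
      intro x hx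
      have h0 := const_zero_of_mul_eq_zero hm hx
      have h1 := rho_mul m x a
      rw [hx, rho_zero, h0] at h1
      apply ih (rho a x)
      rw [eq_comm] at h1
      rw [← h1]
      apply ext_cf
      intro u; simp
  exact ext_cf fun w => key w x h

theorem mul_left_cancel_of_ne_zero {m x y : NPS α F} (hm : m ≠ 0) (h : m * x = m * y) :
    x = y := by
  have : m * (x - y) = 0 := by rw [mul_sub, h, sub_self]
  exact sub_eq_zero.mp (mul_eq_zero_right hm this)

end field

section division
variable [CommRing k]

/-- left division of `p` by `u`, where `δ` divides by the constant term of `u` -/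
def gdivAux (u : NPS α k) (δ : k → k) : NPS α k → List α → k
  | p, [] => δ (p.cf [])
  | p, a :: w => gdivAux u δ (rho a p - scal (δ (p.cf [])) (rho a u)) w

/-- left division of `p` by `u`, where `δ` divides by the constant term of `u` -/
def gdiv (u : NPS α k) (δ : k → k) (p : NPS α k) : NPS α k := ⟨gdivAux u δ p⟩

theorem mul_gdiv (u : NPS α k) (δ : k → k) (J : NPS α k → Prop)
    (h1 : ∀ p, J p → u.cf [] * δ (p.cf []) = p.cf [])
    (h2 : ∀ p, J p → ∀ a, J (rho a p - scal (δ (p.cf [])) (rho a u))) :
    ∀ p, J p → u * gdiv u δ p = p := by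
  have key : ∀ w : List α, ∀ p, J p → (u * gdiv u δ p).cf w = p.cf w := by
    intro w
    induction w with
    | nil => intro p hp; rw [mul_nil]; exact h1 p hp
    | cons a w ih =>
      intro p hp
      rw [mul_cons]
      have h3 : rho a (gdiv u δ p) = gdiv u δ (rho a p - scal (δ (p.cf [])) (rho a u)) := rfl
      have h4 : (gdiv u δ p).cf [] = δ (p.cf []) := rfl
      rw [h3, h4, ih _ (h2 p hp a)]
      simp only [sub_cf, rho_cf, scal_cf]
      ring
  intro p hp; exact ext_cf fun w => key w p hp

theorem exists_right_inv (u : NPS α k) (c : k) (hc : u.cf [] * c = 1) :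
    ∃ r : NPS α k, u * r = 1 ∧ r.cf [] = c := by
  refine ⟨gdiv u (fun x => c * x) 1, ?_, ?_⟩
  · refine mul_gdiv u _ (fun _ => True) ?_ (fun _ _ _ => trivial) 1 trivial
    intro p _
    rw [← mul_assoc, hc, one_mul]
  · show c * 1 = c
    rw [mul_one]

theorem exists_inv (u : NPS α k) (c : k) (hc : u.cf [] * c = 1) :
    ∃ r : NPS α k, u * r = 1 ∧ r * u = 1 ∧ r.cf [] = c := by
  obtain ⟨r, hr, hr0⟩ := exists_right_inv u c hc
  obtain ⟨r', hr', _⟩ := exists_right_inv r (u.cf []) (by rw [hr0, mul_comm]; exact hc)
  have : u = r' := by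
    calc u = u * (r * r') := by rw [hr', mul_one]
      _ = (u * r) * r' := by rw [mul_assoc]
      _ = r' := by rw [hr, one_mul]
  exact ⟨r, hr, by rw [this]; exact hr', hr0⟩

end division

section map
variable [CommRing k] [CommRing k']

theorem map_mulAux (φ : k →+* k') (f : NPS α k) (w : List α) : ∀ g : NPS α k,
    φ (mulAux f g w) = mulAux ⟨fun w => φ (f.cf w)⟩ ⟨fun w => φ (g.cf w)⟩ w := by
  induction w with
  | nil => intro g; simp [mulAux]
  | cons a w ih =>
    intro g
    simp only [mulAux, map_add, map_mul, ih]
    rfl

/-- change of coefficients -/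
def map (φ : k →+* k') : NPS α k →+* NPS α k' where
  toFun f := ⟨fun w => φ (f.cf w)⟩
  map_one' := by
    apply ext_cf
    intro w
    cases w <;> simp
  map_mul' f g := ext_cf fun w => map_mulAux φ f w g
  map_zero' := ext_cf fun w => map_zero φ
  map_add' f g := ext_cf fun w => map_add φ _ _

@[simp] theorem map_cf (φ : k →+* k') (f : NPS α k) (w : List α) :
    (map φ f).cf w = φ (f.cf w) := rfl

theorem map_rho (φ : k →+* k') (a : α) (f : NPS α k) : map φ (rho a f) = rho a (map φ f) := rfl

theorem map_injective (φ : k →+* k') (hφ : Function.Injective φ) :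
    Function.Injective (map φ : NPS α k →+* NPS α k') := by
  intro f g h
  exact ext_cf fun w => hφ (congrArg (fun f => NPS.cf f w) h)

end map

section letter
variable [CommRing k] [DecidableEq α]

/-- the letter `a` as a series -/
def X (a : α) : NPS α k := ⟨fun w => if w = [a] then 1 else 0⟩

theorem X_nil (a : α) : (X a : NPS α k).cf [] = 0 := by simp [X]

theorem rho_X (a b : α) : rho b (X a : NPS α k) = if b = a then 1 else 0 := by
  apply ext_cf
  intro w
  cases w with
  | nil =>
    by_cases h : b = a
    · simp [X, h]
    · simp [X, h]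
  | cons c w =>
    by_cases h : b = a
    · simp [X, h]
    · simp [X, h]

theorem mul_X_nil (f : NPS α k) (a : α) : (f * X a).cf [] = 0 := by
  rw [mul_nil, X_nil, mul_zero]

theorem mul_X_cons (f : NPS α k) (a b : α) (w : List α) :
    (f * X a).cf (b :: w) = if b = a then f.cf w else 0 := by
  rw [mul_cons, rho_X, X_nil, mul_zero, add_zero]
  by_cases h : b = a
  · rw [if_pos h, if_pos h, mul_one]
  · rw [if_neg h, if_neg h, mul_zero]; rfl

end letter

end NPS

end Pool.Agent.MP_fb8dd6_al
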